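import Mathlib

/-!
# Voronoi regions of points on twisted curves (MP_5b0acc_co): negative answer

The twisted curve `t ↦ (2 t, 2 t ^ 2, t ^ 4 + t ^ 2 - 1) / (t ^ 4 + t ^ 2 + 1)`, `t > 0`, lies on the
unit sphere. Among any five points of a sphere there are two whose closed Voronoi regions meet in a
set of zero area.
-/

set_option autoImplicit false

namespace Pool.Agent.Results.MP_5b0acc_co.SphericalTwistedCurve

open MeasureTheory
open scoped RealInnerProductSpace

/-- Euclidean three-space. -/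
abbrev E3 := EuclideanSpace ℝ (Fin 3)

/-- A curve: the image of a continuous injective map from an interval of `ℝ` (with more than one
point) into `ℝ³`. -/
def IsCurve (γ : Set E3) : Prop :=
  ∃ (I : Set ℝ) (c : ℝ → E3), I.OrdConnected ∧ I.Nontrivial ∧ ContinuousOn c I ∧
    Set.InjOn c I ∧ γ = c '' I

/-- A twisted set: no four distinct points of it lie in a common plane. -/
def IsTwisted (γ : Set E3) : Prop :=
  ∀ a ∈ γ, ∀ b ∈ γ, ∀ c ∈ γ, ∀ d ∈ γ, a ≠ b → a ≠ c → a ≠ d → b ≠ c → b ≠ d → c ≠ d →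
    ¬ Coplanar ℝ {a, b, c, d}

/-- The Voronoi region of `x` with respect to `S`: the points strictly nearer to `x` than to every
other point of `S`. -/
def voronoi (S : Set E3) (x : E3) : Set E3 := {y | ∀ z ∈ S, z ≠ x → dist y x < dist y z}

/-! ### The curve -/

/-- the spherical curve -/
noncomputable def crv (t : ℝ) : E3 :=
  !₂[2 * t / (t ^ 4 + t ^ 2 + 1), 2 * t ^ 2 / (t ^ 4 + t ^ 2 + 1),
    (t ^ 4 + t ^ 2 - 1) / (t ^ 4 + t ^ 2 + 1)]

lemma den_pos (t : ℝ) : 0 < t ^ 4 + t ^ 2 + 1 := by positivity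

lemma crv_norm (t : ℝ) : ‖crv t‖ = 1 := by
  have h := den_pos t
  rw [EuclideanSpace.norm_eq, Real.sqrt_eq_one]
  simp only [crv, Fin.sum_univ_three, Real.norm_eq_abs, sq_abs]
  simp
  field_simp
  ring

lemma crv_inj : Set.InjOn crv (Set.Ioi 0) := by
  intro s hs t ht h
  have hs' : 0 < s := hs
  have ht' : 0 < t := ht
  have h0 : 2 * s / (s ^ 4 + s ^ 2 + 1) = 2 * t / (t ^ 4 + t ^ 2 + 1) := by
    have := congrArg (fun x : E3 => x 0) h
    simpa [crv] using this
  have h1 : 2 * s ^ 2 / (s ^ 4 + s ^ 2 + 1) = 2 * t ^ 2 / (t ^ 4 + t ^ 2 + 1) := by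
    have := congrArg (fun x : E3 => x 1) h
    simpa [crv] using this
  have e1 : 2 * s ^ 2 / (s ^ 4 + s ^ 2 + 1) = s * (2 * s / (s ^ 4 + s ^ 2 + 1)) := by ring
  have e2 : 2 * t ^ 2 / (t ^ 4 + t ^ 2 + 1) = t * (2 * t / (t ^ 4 + t ^ 2 + 1)) := by ring
  have hp : 0 < 2 * t / (t ^ 4 + t ^ 2 + 1) := by positivity
  rw [e1, e2, h0] at h1
  exact mul_right_cancel₀ hp.ne' h1

lemma crv_cont : ContinuousOn crv (Set.Ioi 0) := by
  apply Continuous.continuousOn
  unfold crv
  have h : ∀ t : ℝ, t ^ 4 + t ^ 2 + 1 ≠ 0 := fun t => (den_pos t).ne'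
  refine (PiLp.continuous_toLp 2 _).comp (continuous_pi fun i => ?_)
  fin_cases i
  · exact (by fun_prop : Continuous fun t : ℝ => 2 * t).div (by fun_prop) h
  · exact (by fun_prop : Continuous fun t : ℝ => 2 * t ^ 2).div (by fun_prop) h
  · exact (by fun_prop : Continuous fun t : ℝ => t ^ 4 + t ^ 2 - 1).div (by fun_prop) h

/-- a polynomial `α t ^ 4 + β t ^ 2 + γ t + δ` with four distinct positive zeros is zero -/
lemma poly_zero (α β γ δ t₁ t₂ t₃ t₄ : ℝ) (h₁ : 0 < t₁) (h₂ : 0 < t₂) (h₃ : 0 < t₃) (h₄ : 0 < t₄)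
    (h12 : t₁ ≠ t₂) (h13 : t₁ ≠ t₃) (h14 : t₁ ≠ t₄) (h23 : t₂ ≠ t₃) (h24 : t₂ ≠ t₄)
    (h34 : t₃ ≠ t₄)
    (e₁ : α * t₁ ^ 4 + β * t₁ ^ 2 + γ * t₁ + δ = 0)
    (e₂ : α * t₂ ^ 4 + β * t₂ ^ 2 + γ * t₂ + δ = 0)
    (e₃ : α * t₃ ^ 4 + β * t₃ ^ 2 + γ * t₃ + δ = 0)
    (e₄ : α * t₄ ^ 4 + β * t₄ ^ 2 + γ * t₄ + δ = 0) :
    α = 0 ∧ β = 0 ∧ γ = 0 ∧ δ = 0 := by
  have d : ∀ s t : ℝ, s ≠ t → α * s ^ 4 + β * s ^ 2 + γ * s + δ = 0 →
      α * t ^ 4 + β * t ^ 2 + γ * t + δ = 0 →
      α * (s ^ 3 + s ^ 2 * t + s * t ^ 2 + t ^ 3) + β * (s + t) + γ = 0 := by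
    intro s t hst h h'
    have : (s - t) * (α * (s ^ 3 + s ^ 2 * t + s * t ^ 2 + t ^ 3) + β * (s + t) + γ) = 0 := by
      linear_combination h - h'
    rcases mul_eq_zero.1 this with h0 | h0
    · exact absurd (sub_eq_zero.1 h0) hst
    · exact h0
  have d12 := d t₁ t₂ h12 e₁ e₂
  have d13 := d t₁ t₃ h13 e₁ e₃
  have d14 := d t₁ t₄ h14 e₁ e₄
  have dd : ∀ s t : ℝ, s ≠ t →
      α * (t₁ ^ 3 + t₁ ^ 2 * s + t₁ * s ^ 2 + s ^ 3) + β * (t₁ + s) + γ = 0 →
      α * (t₁ ^ 3 + t₁ ^ 2 * t + t₁ * t ^ 2 + t ^ 3) + β * (t₁ + t) + γ = 0 →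
      α * (t₁ ^ 2 + t₁ * s + t₁ * t + s ^ 2 + s * t + t ^ 2) + β = 0 := by
    intro s t hst h h'
    have : (s - t) * (α * (t₁ ^ 2 + t₁ * s + t₁ * t + s ^ 2 + s * t + t ^ 2) + β) = 0 := by
      linear_combination h - h'
    rcases mul_eq_zero.1 this with h0 | h0
    · exact absurd (sub_eq_zero.1 h0) hst
    · exact h0
  have d123 := dd t₂ t₃ h23 d12 d13
  have d124 := dd t₂ t₄ h24 d12 d14
  have hα : α = 0 := by
    have : (t₃ - t₄) * (α * (t₁ + t₂ + t₃ + t₄)) = 0 := by
      linear_combination d123 - d124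
    rcases mul_eq_zero.1 this with h0 | h0
    · exact absurd (sub_eq_zero.1 h0) h34
    · rcases mul_eq_zero.1 h0 with h1 | h1
      · exact h1
      · exfalso; linarith
  subst hα
  have hβ : β = 0 := by linarith
  subst hβ
  have hγ : γ = 0 := by linarith
  subst hγ
  refine ⟨rfl, rfl, rfl, by linarith⟩

lemma exists_normal {s : Set E3} (h : Coplanar ℝ s) :
    ∃ n : E3, n ≠ 0 ∧ ∀ a ∈ s, ∀ b ∈ s, ⟪n, a - b⟫ = 0 := by
  have h2 : Module.finrank ℝ (vectorSpan ℝ s) ≤ 2 := by
    have := Coplanar.finrank_le_two h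
    exact this
  have h3 : (vectorSpan ℝ s)ᗮ ≠ ⊥ := by
    intro hb
    have := Submodule.finrank_add_finrank_orthogonal (vectorSpan ℝ s)
    rw [hb, finrank_bot] at this
    simp at this
    omega
  obtain ⟨n, hn, hn0⟩ := Submodule.exists_mem_ne_zero_of_ne_bot h3
  refine ⟨n, hn0, fun a ha b hb => ?_⟩
  rw [real_inner_comm]
  exact (Submodule.mem_orthogonal _ _).1 hn _ (vsub_mem_vectorSpan ℝ ha hb)

lemma crv_twisted : IsTwisted (crv '' Set.Ioi 0) := by
  rintro _ ⟨t₁, h₁, rfl⟩ _ ⟨t₂, h₂, rfl⟩ _ ⟨t₃, h₃, rfl⟩ _ ⟨t₄, h₄, rfl⟩ h12 h13 h14 h23 h24 h34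
    hcop
  obtain ⟨n, hn0, hn⟩ := exists_normal hcop
  have key : ∀ t : ℝ, ∀ D : ℝ, ⟪n, crv t⟫ = D →
      (n 2 - D) * t ^ 4 + (2 * n 1 + n 2 - D) * t ^ 2 + (2 * n 0) * t + (-(n 2 + D)) = 0 := by
    intro t D h
    have hd := den_pos t
    have : ⟪n, crv t⟫ = (n 0 * (2 * t) + n 1 * (2 * t ^ 2) + n 2 * (t ^ 4 + t ^ 2 - 1)) /
        (t ^ 4 + t ^ 2 + 1) := by
      simp only [crv, PiLp.inner_apply, Fin.sum_univ_three]
      simp
      field_simp
    rw [this, div_eq_iff hd.ne'] at h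
    linear_combination h
  set D := ⟪n, crv t₁⟫ with hD
  have k₁ := key t₁ D rfl
  have k₂ := key t₂ D (by
    have := hn (crv t₂) (by simp) (crv t₁) (by simp)
    rw [inner_sub_right] at this; linarith)
  have k₃ := key t₃ D (by
    have := hn (crv t₃) (by simp) (crv t₁) (by simp)
    rw [inner_sub_right] at this; linarith)
  have k₄ := key t₄ D (by
    have := hn (crv t₄) (by simp) (crv t₁) (by simp)
    rw [inner_sub_right] at this; linarith)
  obtain ⟨a1, a2, a3, a4⟩ := poly_zero _ _ _ _ t₁ t₂ t₃ t₄ h₁ h₂ h₃ h₄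
    (fun h => h12 (by rw [h])) (fun h => h13 (by rw [h])) (fun h => h14 (by rw [h]))
    (fun h => h23 (by rw [h])) (fun h => h24 (by rw [h])) (fun h => h34 (by rw [h])) k₁ k₂ k₃ k₄
  apply hn0
  ext i
  fin_cases i
  · simp; linarith
  · simp; linarith
  · simp; linarith

/-! ### Voronoi regions of points on a sphere -/

lemma closure_voronoi_subset (S : Set E3) (x : E3) :
    closure (voronoi S x) ⊆ {y | ∀ z ∈ S, dist y x ≤ dist y z} := by
  apply closure_minimal
  · intro y hy z hz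
    by_cases h : z = x
    · rw [h]
    · exact (hy z hz h).le
  · have : {y : E3 | ∀ z ∈ S, dist y x ≤ dist y z} = ⋂ z ∈ S, {y | dist y x ≤ dist y z} := by
      ext; simp
    rw [this]
    exact isClosed_biInter fun z _ => isClosed_le (by fun_prop) (by fun_prop)

lemma dist_le_iff {x z y : E3} (hx : ‖x‖ = 1) (hz : ‖z‖ = 1) :
    dist y x ≤ dist y z ↔ ⟪y, z⟫ ≤ ⟪y, x⟫ := by
  rw [← abs_of_nonneg (dist_nonneg (x := y) (y := x)), ← abs_of_nonneg (dist_nonneg (x := y) (y := z)),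
    ← sq_le_sq, dist_eq_norm, dist_eq_norm, norm_sub_sq_real, norm_sub_sq_real, hx, hz]
  constructor <;> intro h <;> linarith

/-- a line through the origin has zero area -/
lemma line_null {u v : E3} (h : LinearIndependent ℝ ![u, v]) :
    μH[2] {y : E3 | ⟪y, u⟫ = 0 ∧ ⟪y, v⟫ = 0} = 0 := by
  have h1 : Module.finrank ℝ (Submodule.span ℝ (Set.range ![u, v])) = 2 := by
    rw [finrank_span_eq_card h]; simp
  have h2 := Submodule.finrank_add_finrank_orthogonal (Submodule.span ℝ (Set.range ![u, v]))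
  rw [h1] at h2
  have h3 : Module.finrank ℝ (Submodule.span ℝ (Set.range ![u, v]))ᗮ = 1 := by
    simp at h2; omega
  set W := (Submodule.span ℝ (Set.range ![u, v]))ᗮ with hW
  have hsub : {y : E3 | ⟪y, u⟫ = 0 ∧ ⟪y, v⟫ = 0} ⊆ Set.range (Subtype.val : W → E3) := by
    rintro y ⟨hu, hv⟩
    refine ⟨⟨y, ?_⟩, rfl⟩
    rw [hW, Submodule.mem_orthogonal]
    intro z hz
    refine Submodule.span_induction (p := fun z _ => ⟪z, y⟫ = 0) ?_ ?_ ?_ ?_ hz
    · rintro _ ⟨i, rfl⟩
      fin_cases i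
      · simpa [real_inner_comm] using hu
      · simpa [real_inner_comm] using hv
    · simp
    · intro a b _ _ ha hb
      rw [inner_add_left, ha, hb, add_zero]
    · intro a b _ hb
      rw [inner_smul_left, hb, mul_zero]
  refine measure_mono_null hsub ?_
  have hd : dimH (Set.range (Subtype.val : W → E3)) ≤ 1 := by
    have h4 : dimH (Set.range (Subtype.val : W → E3)) ≤ dimH (Set.univ : Set W) :=
      (isometry_subtype_coe.lipschitz).dimH_range_le
    rw [Real.dimH_univ_eq_finrank, h3] at h4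
    exact_mod_cast h4
  have := hausdorffMeasure_of_dimH_lt (s := Set.range (Subtype.val : W → E3)) (d := 2)
    (lt_of_le_of_lt hd (by norm_num))
  simpa using this

/-- the key combinatorial step (Radon) -/
lemma exists_triple (x : Fin 5 → E3) :
    ∃ i j k : Fin 5, i ≠ j ∧ i ≠ k ∧ j ≠ k ∧ ∀ y : E3,
      (∀ l, ⟪y, x l⟫ ≤ ⟪y, x i⟫) → (∀ l, ⟪y, x l⟫ ≤ ⟪y, x j⟫) → ⟪y, x k⟫ = ⟪y, x i⟫ := by
  classical
  have hna : ¬ AffineIndependent ℝ x := by
    intro h
    have := h.card_le_finrank_succ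
    have h2 : Module.finrank ℝ (vectorSpan ℝ (Set.range x)) ≤ 3 := by
      have := Submodule.finrank_le (vectorSpan ℝ (Set.range x))
      simpa using this
    simp at this
    omega
  obtain ⟨w, hw0, hwx, k₀, hk₀⟩ : ∃ w : Fin 5 → ℝ, ∑ i, w i = 0 ∧ ∑ i, w i • x i = 0 ∧
      ∃ i, w i ≠ 0 := by
    rw [affineIndependent_iff] at hna
    push Not at hna
    obtain ⟨s, w, hw0, hwx, i, hi, hwi⟩ := hna
    refine ⟨fun j => if j ∈ s then w j else 0, ?_, ?_, i, by simp [hi, hwi]⟩
    · have : ∑ j, (if j ∈ s then w j else 0) = ∑ j ∈ s, w j := by simp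
      rw [this, hw0]
    · have : ∑ j, (if j ∈ s then w j else 0) • x j = ∑ j ∈ s, w j • x j := by simp [ite_smul]
      rw [this, hwx]
  -- the claim for weights with at most two positive entries
  have main : ∀ w : Fin 5 → ℝ, ∑ i, w i = 0 → ∑ i, w i • x i = 0 → (∃ i, w i ≠ 0) →
      (Finset.univ.filter fun i => 0 < w i).card ≤ 2 →
      ∃ i j k : Fin 5, i ≠ j ∧ i ≠ k ∧ j ≠ k ∧ ∀ y : E3,
      (∀ l, ⟪y, x l⟫ ≤ ⟪y, x i⟫) → (∀ l, ⟪y, x l⟫ ≤ ⟪y, x j⟫) → ⟪y, x k⟫ = ⟪y, x i⟫ := by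
    intro w hw0 hwx hne hcard
    have hneg : ∃ k, w k < 0 := by
      by_contra hcon
      push Not at hcon
      obtain ⟨i, hi⟩ := hne
      have := (Finset.sum_eq_zero_iff_of_nonneg (fun i _ => hcon i)).1 hw0 i (Finset.mem_univ _)
      exact hi this
    have hpos : ∃ k, 0 < w k := by
      by_contra hcon
      push Not at hcon
      obtain ⟨i, hi⟩ := hne
      have := (Finset.sum_eq_zero_iff_of_nonpos (fun i _ => hcon i)).1 hw0 i (Finset.mem_univ _)
      exact hi this
    obtain ⟨k, hk⟩ := hneg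
    obtain ⟨i, hi⟩ := hpos
    have hik : i ≠ k := by rintro rfl; linarith
    obtain ⟨j, hji, hjk, hP⟩ : ∃ j, i ≠ j ∧ j ≠ k ∧ ∀ l, 0 < w l → l = i ∨ l = j := by
      by_cases h2 : ∃ j, j ≠ i ∧ 0 < w j
      · obtain ⟨j, hji, hj⟩ := h2
        refine ⟨j, hji.symm, by rintro rfl; linarith, fun l hl => ?_⟩
        by_contra hcon
        push Not at hcon
        have hsub : ({i, j, l} : Finset (Fin 5)) ⊆ Finset.univ.filter fun i => 0 < w i := by
          intro a ha
          simp only [Finset.mem_insert, Finset.mem_singleton] at ha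
          rcases ha with rfl | rfl | rfl <;> simp [hi, hj, hl]
        have h3 : ({i, j, l} : Finset (Fin 5)).card = 3 := by
          rw [Finset.card_eq_three]
          exact ⟨i, j, l, hji.symm, hcon.1.symm, hcon.2.symm, rfl⟩
        have := Finset.card_le_card hsub
        omega
      · push Not at h2
        obtain ⟨j, hj⟩ : ∃ j : Fin 5, j ∉ ({i, k} : Finset (Fin 5)) := by
          by_contra hcon
          push Not at hcon
          have h5 : (Finset.univ : Finset (Fin 5)) ⊆ {i, k} := fun a _ => hcon a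
          have := Finset.card_le_card h5
          have h6 : ({i, k} : Finset (Fin 5)).card ≤ 2 := Finset.card_le_two
          simp at this
          omega
        simp only [Finset.mem_insert, Finset.mem_singleton, not_or] at hj
        refine ⟨j, fun h => hj.1 h.symm, hj.2, fun l hl => ?_⟩
        left
        by_contra hli
        exact absurd hl (not_lt.2 (h2 l hli))
    refine ⟨i, j, k, hji, hik, hjk, fun y hyi hyj => ?_⟩
    have hMij : ⟪y, x i⟫ = ⟪y, x j⟫ := le_antisymm (hyj i) (hyi j)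
    have hsum : ∑ l, w l * (⟪y, x l⟫ - ⟪y, x i⟫) = 0 := by
      have h1 : ∑ l, w l * ⟪y, x l⟫ = 0 := by
        have : ⟪y, ∑ l, w l • x l⟫ = 0 := by rw [hwx, inner_zero_right]
        rw [inner_sum] at this
        simpa [inner_smul_right] using this
      simp only [mul_sub, Finset.sum_sub_distrib, h1, ← Finset.sum_mul, hw0, zero_mul, sub_zero]
    have hnonneg : ∀ l ∈ (Finset.univ : Finset (Fin 5)), 0 ≤ w l * (⟪y, x l⟫ - ⟪y, x i⟫) := by
      intro l _
      rcases lt_trichotomy (w l) 0 with h | h | h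
      · exact mul_nonneg_of_nonpos_of_nonpos h.le (by linarith [hyi l])
      · rw [h, zero_mul]
      · rcases hP l h with rfl | rfl
        · simp
        · rw [hMij, sub_self, mul_zero]
    have := (Finset.sum_eq_zero_iff_of_nonneg hnonneg).1 hsum k (Finset.mem_univ _)
    rcases mul_eq_zero.1 this with h | h
    · exact absurd h hk.ne
    · linarith
  -- one of `w`, `-w` has at most two positive entries
  have hcards : (Finset.univ.filter fun i => 0 < w i).card +
      (Finset.univ.filter fun i => 0 < (-w) i).card ≤ 5 := by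
    rw [← Finset.card_union_of_disjoint]
    · refine (Finset.card_le_univ _).trans (by simp)
    · rw [Finset.disjoint_filter]
      intro i _ h1 h2
      simp only [Pi.neg_apply] at h2
      linarith
  rcases Nat.lt_or_ge (Finset.univ.filter fun i => 0 < w i).card 3 with h | h
  · exact main w hw0 hwx ⟨k₀, hk₀⟩ (by omega)
  · refine main (-w) (by simp [hw0]) ?_ ⟨k₀, by simpa using hk₀⟩ (by omega)
    simp [hwx]

lemma five_points {S : Set E3} (hS : ∀ x ∈ S, ‖x‖ = 1) (htw : IsTwisted S) (h5 : 5 ≤ S.encard) :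
    ∃ x ∈ S, ∃ x' ∈ S, x ≠ x' ∧ μH[2] (closure (voronoi S x) ∩ closure (voronoi S x')) = 0 := by
  classical
  obtain ⟨T, hTS, hT⟩ := Set.exists_subset_encard_eq h5
  have hfin : T.Finite := Set.finite_of_encard_eq_coe (k := 5) (by simpa using hT)
  have hcard : hfin.toFinset.card = 5 := by
    have := hfin.encard_eq_coe_toFinset_card
    rw [hT] at this
    exact_mod_cast this.symm
  let e := hfin.toFinset.equivFinOfCardEq hcard
  let x : Fin 5 → E3 := fun i => (e.symm i : E3)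
  have hxinj : Function.Injective x := fun i j h => e.symm.injective (Subtype.ext h)
  have hxS : ∀ i, x i ∈ S := fun i => hTS ((hfin.mem_toFinset).1 (e.symm i).2)
  obtain ⟨i, j, k, hij, hik, hjk, H⟩ := exists_triple x
  have hcop : LinearIndependent ℝ ![x j - x i, x k - x i] := by
    obtain ⟨l, hl⟩ : ∃ l : Fin 5, l ∉ ({i, j, k} : Finset (Fin 5)) := by
      by_contra hcon
      push Not at hcon
      have h5 : (Finset.univ : Finset (Fin 5)) ⊆ {i, j, k} := fun a _ => hcon a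
      have := Finset.card_le_card h5
      have h6 : ({i, j, k} : Finset (Fin 5)).card ≤ 3 := Finset.card_le_three
      simp at this
      omega
    simp only [Finset.mem_insert, Finset.mem_singleton, not_or] at hl
    have hnc := htw (x i) (hxS i) (x j) (hxS j) (x k) (hxS k) (x l) (hxS l)
      (hxinj.ne hij) (hxinj.ne hik) (hxinj.ne (Ne.symm hl.1)) (hxinj.ne hjk)
      (hxinj.ne (Ne.symm hl.2.1)) (hxinj.ne (Ne.symm hl.2.2))
    by_contra hdep
    apply hnc
    have h3 : Collinear ℝ ({x i, x j, x k} : Set E3) := by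
      rw [LinearIndependent.pair_iff] at hdep
      push Not at hdep
      obtain ⟨s, t, hst, hne⟩ := hdep
      by_cases hs : s = 0
      · exfalso
        subst hs
        have ht : t ≠ 0 := hne rfl
        rw [zero_smul, zero_add] at hst
        rcases smul_eq_zero.1 hst with h | h
        · exact ht h
        · exact (hxinj.ne hik) (sub_eq_zero.1 h).symm
      · rw [collinear_iff_of_mem (p₀ := x i) (by simp)]
        refine ⟨x k - x i, ?_⟩
        intro p hp
        simp only [Set.mem_insert_iff, Set.mem_singleton_iff] at hp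
        rcases hp with rfl | rfl | rfl
        · exact ⟨0, by simp⟩
        · refine ⟨-(t / s), ?_⟩
          have : x j - x i = (-(t / s)) • (x k - x i) := by
            have h1 : s • (x j - x i) = -(t • (x k - x i)) := eq_neg_of_add_eq_zero_left hst
            have h2 : x j - x i = s⁻¹ • (s • (x j - x i)) := by rw [smul_smul, inv_mul_cancel₀ hs, one_smul]
            rw [h2, h1, smul_neg, smul_smul, neg_smul]
            congr 2
            field_simp
          rw [← this]; simp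
        · exact ⟨1, by simp⟩
    have h4 : ({x i, x j, x k, x l} : Set E3) = insert (x l) {x i, x j, x k} := by
      ext a; simp; tauto
    rw [h4]
    exact h3.coplanar_insert (x l)
  refine ⟨x i, hxS i, x j, hxS j, hxinj.ne hij, ?_⟩
  refine measure_mono_null ?_ (line_null hcop)
  rintro y ⟨hyi, hyj⟩
  have hyi' := closure_voronoi_subset S (x i) hyi
  have hyj' := closure_voronoi_subset S (x j) hyj
  have h1 : ∀ l, ⟪y, x l⟫ ≤ ⟪y, x i⟫ := fun l =>
    (dist_le_iff (hS _ (hxS i)) (hS _ (hxS l))).1 (hyi' (x l) (hxS l))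
  have h2 : ∀ l, ⟪y, x l⟫ ≤ ⟪y, x j⟫ := fun l =>
    (dist_le_iff (hS _ (hxS j)) (hS _ (hxS l))).1 (hyj' (x l) (hxS l))
  constructor
  · rw [inner_sub_right]
    linarith [h1 j, h2 i]
  · rw [inner_sub_right, H y h1 h2, sub_self]

/-- **Negative answer to the question of Dewdney and Vranch.** There is a twisted curve `γ` such
that in every set `S ⊆ γ` with at least five points, in particular in every infinite `S ⊆ γ`, there
are two distinct points whose closed Voronoi regions with respect to `S` meet in a set of zero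
area (two-dimensional Hausdorff measure). -/
theorem result : ∃ γ : Set E3, IsCurve γ ∧ IsTwisted γ ∧
    (∀ S ⊆ γ, 5 ≤ S.encard → ∃ x ∈ S, ∃ x' ∈ S, x ≠ x' ∧
      μH[2] (closure (voronoi S x) ∩ closure (voronoi S x')) = 0) ∧
    (∀ S ⊆ γ, S.Infinite → ∃ x ∈ S, ∃ x' ∈ S, x ≠ x' ∧
      μH[2] (closure (voronoi S x) ∩ closure (voronoi S x')) = 0) := by
  have h5 : ∀ S ⊆ crv '' Set.Ioi 0, 5 ≤ S.encard → ∃ x ∈ S, ∃ x' ∈ S, x ≠ x' ∧
      μH[2] (closure (voronoi S x) ∩ closure (voronoi S x')) = 0 := by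
    intro S hS h5
    refine five_points ?_ ?_ h5
    · intro x hx
      obtain ⟨t, _, rfl⟩ := hS hx
      exact crv_norm t
    · intro a ha b hb c hc d hd
      exact crv_twisted a (hS ha) b (hS hb) c (hS hc) d (hS hd)
  refine ⟨crv '' Set.Ioi 0, ⟨Set.Ioi 0, crv, Set.ordConnected_Ioi, ?_, crv_cont, crv_inj, rfl⟩,
    crv_twisted, h5, fun S hS hinf => h5 S hS ?_⟩
  · exact ⟨1, by simp, 2, by simp, by norm_num⟩
  · rw [hinf.encard_eq]; exact le_top

end Pool.Agent.Results.MP_5b0acc_co.SphericalTwistedCurve
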